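import Pool.Agent.H73.CR.Fin

/-!
# A Cremer polynomial with an external ray landing at the Cremer point

Problem MP_db365f_an, Q1: yes. Moreover the set of such rotation numbers is dense.

Outline of the proof. Start with a rational rotation number `p / q`, for which the rays of the rotation cycle
of angles `ang p q i` land at the parabolic fixed point `0`. The numbers `p_N / q_N` with
`q p_N - p q_N = 1` tend to `p / q`, and the parabolic gates open in such a way that the return map
`f^[q_N]` converges to the Lavaurs map with phase `0`. The stage lemma says: for every `r > 0` there is a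
potential `s0` such that for arbitrarily large `N` some ray of the rotation cycle of `p_N / q_N`, with an
angle close to the given one, stays in the disc of radius `r` from the potential `s0` down to its landing
point `0`. In its proof the ray is continued backwards through the gates by a path `σ` with
`E (σ (t + 1)) = σ t` of the horn map `E` of the gate, which starts at the landing point of the image of the
given ray in the repelling coordinate and is shown to tend to the upper end of the cylinder. A diagonal
argument over the stages gives an irrational rotation number and an external ray which tends to `0`; the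
existence of this ray excludes linearisation.
-/

set_option autoImplicit false

open Filter Topology

namespace Pool.Agent.Results.MP_db365f_an.CremerRay

/-- The quadratic polynomial `z ^ 2 + e^{2πiα} z`. -/
noncomputable def P (α : ℝ) (z : ℂ) : ℂ := z ^ 2 + Complex.exp (2 * Real.pi * α * Complex.I) * z

/-- The filled Julia set of `P α`: the points with bounded forward orbit. -/
def FilledJulia (α : ℝ) : Set ℂ := {z | ∃ C : ℝ, ∀ n : ℕ, ‖(P α)^[n] z‖ ≤ C}

/-- `P α` is linearisable at `0`: a local holomorphic coordinate `φ` at `0` conjugates it to the rotation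
`w ↦ e^{2πiα} w`. -/
def Linearizable (α : ℝ) : Prop := ∃ φ : ℂ → ℂ, AnalyticAt ℂ φ 0 ∧ φ 0 = 0 ∧ deriv φ 0 ≠ 0 ∧
  ∀ᶠ z in 𝓝 (0 : ℂ), φ (P α z) = Complex.exp (2 * Real.pi * α * Complex.I) * φ z

/-- `ψ` is the conformal isomorphism from the complement of the closed unit disc onto the complement of the
filled Julia set with `ψ w / w → 1` at infinity. -/
structure IsConformalIso (α : ℝ) (ψ : ℂ → ℂ) : Prop where
  diff : DifferentiableOn ℂ ψ {w | 1 < ‖w‖}
  bij : Set.BijOn ψ {w | 1 < ‖w‖} (FilledJulia α)ᶜ
  normalized : Tendsto (fun w => ψ w / w) (Bornology.cobounded ℂ) (𝓝 1)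

/-- In every interval there is an irrational number `α` such that `0` is a Cremer point of `P α` and some
external ray of `P α` lands at `0`. -/
theorem result : ∀ a b : ℝ, a < b → ∃ α t : ℝ, a < α ∧ α < b ∧ Irrational α ∧ ¬ Linearizable α ∧
    (0 : ℂ) ∈ frontier (FilledJulia α) ∧ (∃ ψ, IsConformalIso α ψ) ∧
    ∀ ψ, IsConformalIso α ψ → (∀ w : ℂ, 1 < ‖w‖ → ψ (w ^ 2) = P α (ψ w)) ∧
      Tendsto (fun r : ℝ => ψ (r * Complex.exp (2 * Real.pi * t * Complex.I))) (𝓝[>] 1) (𝓝 0) := by
  intro a b hab
  obtain ⟨α, t, h1, h2, h3, h4, h5, ⟨ψ, hψ⟩, h6⟩ := Pool.Agent.CR.main hab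
  exact ⟨α, t, h1, h2, h3, h4, h5, ⟨ψ, hψ.1, hψ.2, hψ.3⟩, fun ψ' h => h6 ψ' ⟨h.1, h.2, h.3⟩⟩

end Pool.Agent.Results.MP_db365f_an.CremerRay
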